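import Mathlib
import Pool.Agent.H.MP_25e654_an.A

set_option autoImplicit false

namespace Pool.Agent.H.MP_8983f3_an

open Set Filter Topology Real Function TopologicalSpace Metric Pool.Agent.H.MP_25e654_an

theorem pettis {Z X : Type} [NormedAddCommGroup Z] [NormedSpace ℝ Z] [CompleteSpace Z] [NormedAddCommGroup X]
    [NormedSpace ℝ X] (i : Z →ₗ[ℝ] X) (h : @Measurable Z X (borel Z) (borel X) i) : Continuous i := by
  letI := borel Z
  letI := borel X
  haveI : BorelSpace Z := ⟨rfl⟩
  haveI : BorelSpace X := ⟨rfl⟩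
  choose U a b using fun n : ℕ => (h (measurableSet_ball (x := 0) (ε := n))).residualEq_isOpen
  have c := eventually_countable_forall.2 fun n => (b n).mem_iff
  obtain ⟨x, p⟩ := (dense_of_mem_residual c).nonempty
  obtain ⟨n, q⟩ := exists_nat_gt ‖i x‖
  obtain ⟨δ, d, e⟩ := Metric.isOpen_iff.1 (a n) x ((p n).1 (mem_ball_zero_iff.2 q))
  have := ((normSeminorm ℝ X).comp i).continuous (r := n + n) (mem_of_superset (ball_mem_nhds 0 (half_pos d))
    fun v f => by
      obtain ⟨y, s, t, u⟩ := (dense_of_mem_residual (c.and ((tendsto_residual_of_isOpenMap (continuous_add_const v)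
        (isOpenMap_add_right v)).eventually c))).inter_open_nonempty _ isOpen_ball (nonempty_ball.2 (half_pos d))
      have g := mem_ball_zero_iff.1 ((t n).2 (e (ball_subset_ball (half_le_self d.le) s)))
      have l := mem_ball_zero_iff.1 ((u n).2 (e ((dist_triangle _ y _).trans_lt (by
        linarith [mem_ball.1 s, mem_ball_zero_iff.1 f, show dist (y + v) y = ‖v‖ by simp]))))
      simpa using (norm_sub_le _ _).trans_lt (add_lt_add l g))
  refine continuous_of_continuousAt_zero i ?_
  rw [ContinuousAt, map_zero, tendsto_zero_iff_norm_tendsto_zero]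
  exact this.tendsto' 0 0 (map_zero _)

theorem main (Z : Type) [NormedAddCommGroup Z] [NormedSpace ℝ Z] [CompleteSpace Z] (i : Z →L[ℝ] E)
    (hi : Injective i) (k : ∀ x : E, x ∈ range i ↔ Summable fun n => |x n * log (x n)|) : False := by
  choose z hz using fun n => (k (lp.single 1 n 1)).2 (by
    convert summable_zero (α := ℝ) with m
    rcases eq_or_ne m n with rfl | a <;> simp [*])
  by_cases c : ∀ k : ℕ, ∃ᶠ n in atTop, k * 2 ^ k < ‖z n‖
  · obtain ⟨φ, p, q⟩ := extraction_forall_of_frequently c
    let w := extend φ (fun k => (1 / 2 : ℝ) ^ k) 0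
    have e : ∀ k, w (φ k) = (1 / 2) ^ k := p.injective.extend_apply _ _
    have b : ∀ n, |w n| ≤ 1 := fun n => by
      by_cases c : ∃ k, φ k = n
      · exact c.elim fun k a => a ▸ e k ▸ hw k
      simp [w, extend_apply' _ _ _ c]
    have s : Summable fun n => |w n| := ((p.injective.summable_iff (f := w) fun n a => extend_apply' _ _ _ a).1
      (summable_geometric_two.congr fun k => (e k).symm)).abs
    choose T hT using fun a => (k (mu w b a)).2 (.of_nonneg_of_le (fun _ => abs_nonneg _) (fun n => by
      change |w n * a n * log (w n * a n)| ≤ _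
      rw [l2]
      refine (abs_add_le _ _).trans (add_le_add_right ?_ _)
      rw [abs_mul]
      exact mul_le_mul_of_nonneg_right ((l1 _).trans (add_le_add_right ((sq_le_one_iff_abs_le_one _).2 (b n)) 1))
        (abs_nonneg _)) ((sw s a).add ((ml.1 (lp.memℓp a)).mul_left (1 + 1))))
    let L : E →ₗ[ℝ] Z := ⟨⟨T, fun x y => hi (by simp [hT])⟩, fun a x => hi (by simp [hT])⟩
    obtain ⟨C, -, hC⟩ := SemilinearMapClass.bound_of_continuous L (L.continuous_of_seq_closed_graph fun u x y a d =>
      hi (tendsto_nhds_unique ((i.continuous.tendsto _).comp d) (by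
        simpa [L, comp_def, hT] using ((mu w b).continuous.tendsto _).comp a)))
    obtain ⟨k, hk⟩ := exists_nat_gt C
    have t : L (lp.single 1 (φ k) 1) = (1 / 2 : ℝ) ^ k • z (φ k) := hi (by
      simp only [L, LinearMap.coe_mk, AddHom.coe_mk, hT, map_smul, hz]
      ext n
      rcases eq_or_ne n (φ k) with rfl | a <;> simp [mu, *])
    have := hC (lp.single 1 (φ k) 1)
    rw [t, norm_smul, lp.norm_single one_pos, norm_one, mul_one, norm_pow, one_div, norm_inv, norm_ofNat, inv_pow,
      inv_mul_le_iff₀ (by positivity)] at this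
    nlinarith [q k, pow_pos (two_pos (α := ℝ)) k]
  simp only [not_forall, not_frequently, not_lt] at c
  obtain ⟨C, hC⟩ := IsBoundedUnder.bddAbove_range (f := fun n => ‖z n‖) (c.elim fun k a => ⟨_, a⟩)
  obtain ⟨a, ha⟩ := bad
  have s : Summable fun n => a n • z n := .of_norm_bounded ((ml.1 (lp.memℓp a)).mul_right C) fun n => by
    rw [norm_smul]
    exact mul_le_mul_of_nonneg_left (hC ⟨n, rfl⟩) (abs_nonneg _)
  refine ha ((k a).1 ⟨_, (s.hasSum.mapL i).unique ?_⟩)
  simpa [hz, ← lp.single_smul] using lp.hasSum_single (by simp) a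

theorem mem (x : E) : om x ∈ range (mu _ hw) ↔ Summable fun n => |x n * log (x n)| :=
  ⟨fun ⟨m, a⟩ => (ml.1 (lp.memℓp m)).congr fun n => by simpa [mu, om] using congrArg (fun v : E => |v n|) a,
    fun a => ⟨⟨_, ml.2 a⟩, lp.ext (funext fun n => by simp [mu, om])⟩⟩

end Pool.Agent.H.MP_8983f3_an
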